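import Pool.Agent.V11304.OM.Asm

/-!
# The parameters
-/

set_option autoImplicit false

namespace Pool.Agent.V11304.OM

open Filter Real

theorem ev_exp_ge (C : ℝ) (b : ℝ) (hb : 0 < b) : ∀ᶠ l : ℝ in atTop, C ≤ exp (b * l) :=
  (tendsto_exp_atTop.comp (tendsto_id.const_mul_atTop hb)).eventually_ge_atTop C

theorem ev_exp_lin (C : ℝ) (b : ℝ) (hb : 0 < b) : ∀ᶠ l : ℝ in atTop, C * l ≤ exp (b * l) := by
  have h1 : Tendsto (fun l : ℝ => exp (b * l) / (b * l) ^ 1) atTop atTop :=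
    (Real.tendsto_exp_div_pow_atTop 1).comp (tendsto_id.const_mul_atTop hb)
  filter_upwards [h1.eventually_ge_atTop (C / b), eventually_gt_atTop 0] with l hl hl0
  rw [pow_one, le_div_iff₀ (by positivity)] at hl
  calc C * l = C / b * (b * l) := by field_simp
    _ ≤ _ := hl

theorem ev_D (c D0 : ℕ) (ε : ℝ) (h0 : 0 < ε) (h1 : ε < 1) :
    ∀ᶠ l : ℝ in atTop, (D0 : ℝ) * (⌈l ^ 6⌉₊ : ℝ) ^ (c * ⌈l ^ (1 - ε)⌉₊) ≤ exp (1 / 4 * l) := by
  have h2 := (tendsto_rpow_atTop (y := ε / 2) (by positivity)).eventually_ge_atTop (224 * c / ε)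
  filter_upwards [eventually_ge_atTop 2, ev_exp_ge D0 (1 / 8) (by norm_num), h2] with l hl hD hl2
  have hl0 : (0 : ℝ) < l := by linarith
  have e1 : (⌈l ^ 6⌉₊ : ℝ) ≤ l ^ 7 := by
    have h3 := (Nat.ceil_lt_add_one (pow_nonneg hl0.le 6)).le
    have h4 : (1 : ℝ) ≤ l ^ 6 := one_le_pow₀ (by linarith)
    nlinarith [pow_succ l 6]
  have e2 : (⌈l ^ (1 - ε)⌉₊ : ℝ) ≤ l ^ (1 - ε) + 1 :=
    (Nat.ceil_lt_add_one (rpow_nonneg hl0.le _)).le
  have e3 : log l ≤ l ^ (ε / 2) / (ε / 2) := log_le_rpow_div hl0.le (by positivity)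
  have hlog : 0 ≤ log l := log_nonneg (by linarith)
  -- the exponent
  have e5 : (c * ⌈l ^ (1 - ε)⌉₊ : ℝ) * (7 * log l) ≤ 1 / 8 * l := by
    have f1 : l ^ (ε / 2) * l ^ (1 - ε) * l ^ (ε / 2) = l := by
      rw [← rpow_add hl0, ← rpow_add hl0]
      have : ε / 2 + (1 - ε) + ε / 2 = 1 := by ring
      rw [this, rpow_one]
    rw [div_le_iff₀ h0] at hl2
    have hc : (0 : ℝ) ≤ c := Nat.cast_nonneg c
    set u := l ^ (ε / 2) with hu
    set v := l ^ (1 - ε) with hv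
    have hv0 : 0 < v := rpow_pos_of_pos hl0 _
    have hu0 : 0 < u := rpow_pos_of_pos hl0 _
    have f4 : (1 : ℝ) ≤ v := one_le_rpow (by linarith) (by linarith)
    have f5 : (c * ⌈v⌉₊ : ℝ) ≤ c * (2 * v) := by
      apply mul_le_mul_of_nonneg_left _ hc
      linarith
    calc (c * ⌈v⌉₊ : ℝ) * (7 * log l) ≤ (c * (2 * v)) * (7 * (u / (ε / 2))) :=
          mul_le_mul f5 (by linarith) (by positivity) (by positivity)
      _ = 1 / 8 * ((224 * c) * (v * u) / ε) := by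
          field_simp
          ring
      _ ≤ 1 / 8 * ((u * ε) * (v * u) / ε) := by
          gcongr
      _ = 1 / 8 * (u * v * u) := by
          field_simp
      _ = _ := by rw [f1]
  have e6 : (⌈l ^ 6⌉₊ : ℝ) ^ (c * ⌈l ^ (1 - ε)⌉₊) ≤ exp (1 / 8 * l) := by
    calc (⌈l ^ 6⌉₊ : ℝ) ^ (c * ⌈l ^ (1 - ε)⌉₊) ≤ (l ^ 7) ^ (c * ⌈l ^ (1 - ε)⌉₊) :=
          pow_le_pow_left₀ (Nat.cast_nonneg _) e1 _
      _ = exp ((c * ⌈l ^ (1 - ε)⌉₊ : ℝ) * (7 * log l)) := by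
          rw [mul_comm ((c : ℝ) * _) _, exp_mul]
          have h7 : exp (7 * log l) = l ^ 7 := by
            have := exp_nat_mul (log l) 7
            rw [exp_log hl0] at this
            rw [← this]
            norm_num
          rw [h7, ← Nat.cast_mul, rpow_natCast]
      _ ≤ _ := exp_le_exp.2 e5
  calc (D0 : ℝ) * (⌈l ^ 6⌉₊ : ℝ) ^ (c * ⌈l ^ (1 - ε)⌉₊) ≤ exp (1 / 8 * l) * exp (1 / 8 * l) :=
        mul_le_mul hD e6 (by positivity) (exp_pos _).le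
    _ = _ := by
        rw [← exp_add]
        congr 1
        ring

/-- the number of available small primes -/
theorem ev_pi (ε : ℝ) (h0 : 0 < ε) (h1 : ε < 1) :
    ∀ᶠ l : ℝ in atTop, ε / 16 * exp l / l ≤ Nat.primeCounting ⌊ε / 8 * exp l⌋₊ := by
  filter_upwards [eventually_ge_atTop 2, ev_exp_lin (2 * (1000 / (23 * ε))) 1 (by norm_num),
    ev_exp_ge (24 / ε) 1 (by norm_num)] with l hl hb hc
  rw [one_mul] at hb hc
  set L := exp l with hL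
  have hL0 : 0 < L := exp_pos l
  set Y := ⌊ε / 8 * L⌋₊ with hY
  have hY1 : ε / 8 * L < Y + 1 := Nat.lt_floor_add_one _
  have hY2 : (Y : ℝ) ≤ ε / 8 * L := Nat.floor_le (by positivity)
  rw [div_le_iff₀ h0] at hc
  have hY3 : (2 : ℝ) < Y := by nlinarith
  have hlogY : log Y ≤ l := by
    rw [← log_exp l]
    apply log_le_log (by linarith)
    rw [← hL]
    nlinarith
  have hlogY0 : 0 < log Y := log_pos (by linarith)
  have hlogY1 : log ((Y : ℝ) + 1) ≤ l := by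
    rw [← log_exp l]
    apply log_le_log (by linarith)
    rw [← hL]
    nlinarith
  have h2 := Chebyshev.pi_ge Y
  refine le_trans ?_ h2
  have h3 : (0.69 : ℝ) < log 2 := by
    have := log_two_gt_d9
    linarith
  have h4 : ε / 16 * L ≤ Y * log 2 - log ((Y : ℝ) + 1) := by
    have h5 : (ε / 8 * L - 1) * 0.69 ≤ Y * log 2 :=
      mul_le_mul (by linarith) h3.le (by norm_num) (by linarith)
    have h6 : 2 * l ≤ ε * (23 / 1000) * L := by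
      have : 2 * (1000 / (23 * ε)) * l = (2 * l) / (ε * (23 / 1000)) := by
        field_simp
      rw [this, div_le_iff₀ (by positivity)] at hb
      linarith
    nlinarith
  have h7 : 0 ≤ ε / 16 * L := by positivity
  calc ε / 16 * L / l ≤ ε / 16 * L / log Y := by
        apply div_le_div_of_nonneg_left h7 hlogY0 hlogY
    _ ≤ _ := div_le_div_of_nonneg_right h4 hlogY0.le

/-- the discrete conditions -/
theorem ev_params (K : ℕ) (hK : 2 ≤ K) (ε : ℝ) (h0 : 0 < ε) (h1 : ε < 1) :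
    ∀ᶠ l : ℝ in atTop, ∃ w : ℕ,
      4 * ((⌊K * exp l⌋₊ : ℝ) + 1) ^ 2 ≤ (w : ℝ) ^ 2 * (⌈l ^ 6⌉₊ : ℝ) ∧
      2 * (K + 1) ^ 3 * ⌈l ^ (1 - ε)⌉₊ * w +
        (K + 3) * ⌈l ^ 6⌉₊ ^ (2 * (K + 1) ^ 3 * ⌈l ^ (1 - ε)⌉₊) + K + 1 ≤
        Nat.primeCounting ⌊ε / 8 * exp l⌋₊ := by
  have hKr : (2 : ℝ) ≤ K := by exact_mod_cast hK
  filter_upwards [eventually_ge_atTop 1, ev_D (2 * (K + 1) ^ 3) (K + 3) ε h0 h1, ev_pi ε h0 h1,
    ev_exp_lin 1 (1 / 4) (by norm_num), ev_exp_ge (64 / ε) (1 / 2) (by norm_num),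
    ev_exp_ge ((64 * (K + 1)) / ε) (3 / 4) (by norm_num),
    eventually_ge_atTop (64 * (20 * K * (K + 1) ^ 3) / ε)] with l hl hD hpi hl4 ha hb hc
  rw [one_mul] at hl4
  have hl0 : (0 : ℝ) < l := by linarith
  set L := exp l with hL
  have hL0 : 0 < L := exp_pos l
  have hq4 : exp (1 / 4 * l) ^ 4 = L := by
    rw [← exp_nat_mul, hL]
    congr 1
    push_cast
    ring
  set z := exp (1 / 4 * l) with hz
  have hz0 : 0 < z := exp_pos _
  have hz2 : exp (1 / 2 * l) = z ^ 2 := by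
    rw [hz, ← exp_nat_mul]
    congr 1
    push_cast
    ring
  have hz3 : exp (3 / 4 * l) = z ^ 3 := by
    rw [hz, ← exp_nat_mul]
    congr 1
    push_cast
    ring
  rw [hz2] at ha
  rw [hz3] at hb
  have hz1 : 1 ≤ z := hl.trans hl4
  have hl3 : l ^ 3 ≤ L := by
    calc l ^ 3 ≤ z ^ 3 := pow_le_pow_left₀ hl0.le hl4 3
      _ ≤ z ^ 4 := pow_le_pow_right₀ hz1 (by norm_num)
      _ = L := hq4
  refine ⟨⌈2 * ((⌊K * L⌋₊ : ℝ) + 1) / l ^ 3⌉₊, ?_, ?_⟩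
  · have e1 := Nat.le_ceil (2 * ((⌊K * L⌋₊ : ℝ) + 1) / l ^ 3)
    have e2 := Nat.le_ceil (l ^ 6)
    have e3 : (2 * ((⌊K * L⌋₊ : ℝ) + 1) / l ^ 3) ^ 2 * l ^ 6 =
        4 * ((⌊K * L⌋₊ : ℝ) + 1) ^ 2 := by
      field_simp
      ring
    rw [← e3]
    exact mul_le_mul (pow_le_pow_left₀ (by positivity) e1 2) e2 (by positivity) (by positivity)
  · have hw : (⌈2 * ((⌊K * L⌋₊ : ℝ) + 1) / l ^ 3⌉₊ : ℝ) ≤ 5 * K * L / l ^ 3 := by
      have e1 := (Nat.ceil_lt_add_one (a := 2 * ((⌊K * L⌋₊ : ℝ) + 1) / l ^ 3) (by positivity)).le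
      have e2 : (⌊K * L⌋₊ : ℝ) ≤ K * L := Nat.floor_le (by positivity)
      refine e1.trans ?_
      rw [div_add_one (by positivity), div_le_div_iff_of_pos_right (by positivity)]
      have e3 : 1 ≤ L := by
        calc (1 : ℝ) = 1 ^ 3 := by norm_num
          _ ≤ l ^ 3 := pow_le_pow_left₀ (by norm_num) hl 3
          _ ≤ L := hl3
      nlinarith
    have hR : (⌈l ^ (1 - ε)⌉₊ : ℝ) ≤ 2 * l := by
      have e1 := (Nat.ceil_lt_add_one (a := l ^ (1 - ε)) (rpow_nonneg hl0.le _)).le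
      have e2 : l ^ (1 - ε) ≤ l ^ (1 : ℝ) := rpow_le_rpow_of_exponent_le hl (by linarith)
      rw [rpow_one] at e2
      linarith
    have hA : 2 * ((K : ℝ) + 1) ^ 3 * (⌈l ^ (1 - ε)⌉₊ : ℝ) *
        (⌈2 * ((⌊K * L⌋₊ : ℝ) + 1) / l ^ 3⌉₊ : ℝ) ≤ ε / 64 * L / l := by
      calc 2 * ((K : ℝ) + 1) ^ 3 * (⌈l ^ (1 - ε)⌉₊ : ℝ) *
            (⌈2 * ((⌊K * L⌋₊ : ℝ) + 1) / l ^ 3⌉₊ : ℝ) ≤
            2 * ((K : ℝ) + 1) ^ 3 * (2 * l) * (5 * K * L / l ^ 3) := by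
              gcongr
        _ = (20 * K * (K + 1) ^ 3) * (L / l ^ 2) := by
              field_simp
              ring
        _ ≤ (ε / 64 * l) * (L / l ^ 2) := by
              apply mul_le_mul_of_nonneg_right _ (by positivity)
              rw [div_le_iff₀ h0] at hc
              linarith
        _ = _ := by field_simp
    have hB : z ≤ ε / 64 * L / l := by
      rw [le_div_iff₀ hl0, ← hq4]
      rw [div_le_iff₀ h0] at ha
      calc z * l ≤ z * z := by gcongr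
        _ = 1 / 64 * 64 * z ^ 2 := by ring
        _ ≤ 1 / 64 * (z ^ 2 * ε) * z ^ 2 := by gcongr
        _ = _ := by ring
    have hC : (K : ℝ) + 1 ≤ ε / 64 * L / l := by
      rw [le_div_iff₀ hl0, ← hq4]
      rw [div_le_iff₀ h0] at hb
      calc ((K : ℝ) + 1) * l ≤ (K + 1) * z := by gcongr
        _ = 1 / 64 * (64 * (K + 1)) * z := by ring
        _ ≤ 1 / 64 * (z ^ 3 * ε) * z := by gcongr
        _ = _ := by ring
    have hfin : (((2 * (K + 1) ^ 3 * ⌈l ^ (1 - ε)⌉₊ * ⌈2 * ((⌊K * L⌋₊ : ℝ) + 1) / l ^ 3⌉₊ +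
        (K + 3) * ⌈l ^ 6⌉₊ ^ (2 * (K + 1) ^ 3 * ⌈l ^ (1 - ε)⌉₊) + K + 1 : ℕ)) : ℝ) ≤
        Nat.primeCounting ⌊ε / 8 * L⌋₊ := by
      push_cast at hD ⊢
      have : ε / 16 * L / l = 4 * (ε / 64 * L / l) := by ring
      have hpos : 0 ≤ ε / 64 * L / l := by positivity
      linarith
    exact_mod_cast hfin

/-- the modulus is small -/
theorem ev_mod (K : ℕ) (hK : 2 ≤ K) (ε : ℝ) (h0 : 0 < ε) (h1 : ε < 1) :
    ∀ᶠ l : ℝ in atTop, ∀ M : ℕ,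
      M ≤ K ^ (((K + 3) * ⌈l ^ 6⌉₊ ^ (2 * (K + 1) ^ 3 * ⌈l ^ (1 - ε)⌉₊)) ^ 2) *
        4 ^ ⌊ε / 8 * exp l⌋₊ → (M : ℝ) ≤ exp (ε / 4 * exp l) := by
  have hKr : (2 : ℝ) ≤ K := by exact_mod_cast hK
  have hlogK : 0 ≤ log K := log_nonneg (by linarith)
  filter_upwards [ev_D (2 * (K + 1) ^ 3) (K + 3) ε h0 h1,
    ev_exp_ge (log K * 100 / (7 * ε)) (1 / 2) (by norm_num)] with l hD ha M hM
  set L := exp l with hL
  have hL0 : 0 < L := exp_pos l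
  set N := (K + 3) * ⌈l ^ 6⌉₊ ^ (2 * (K + 1) ^ 3 * ⌈l ^ (1 - ε)⌉₊) with hN
  have hN' : (N : ℝ) ≤ exp (1 / 4 * l) := by
    rw [hN]
    push_cast at hD ⊢
    exact hD
  have hN2 : ((N ^ 2 : ℕ) : ℝ) ≤ exp (1 / 2 * l) := by
    push_cast
    calc (N : ℝ) ^ 2 ≤ exp (1 / 4 * l) ^ 2 := pow_le_pow_left₀ (Nat.cast_nonneg _) hN' 2
      _ = _ := by
        rw [← exp_nat_mul]
        congr 1
        push_cast
        ring
  have hM' : (M : ℝ) ≤ (K : ℝ) ^ (N ^ 2) * 4 ^ ⌊ε / 8 * L⌋₊ := by exact_mod_cast hM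
  refine hM'.trans ?_
  have e1 : (K : ℝ) ^ (N ^ 2) = exp (log K * ((N ^ 2 : ℕ) : ℝ)) := by
    rw [exp_mul, exp_log (by linarith), rpow_natCast]
  have e2 : (4 : ℝ) ^ ⌊ε / 8 * L⌋₊ = exp (log 4 * (⌊ε / 8 * L⌋₊ : ℝ)) := by
    rw [exp_mul, exp_log (by norm_num), rpow_natCast]
  rw [e1, e2, ← exp_add, exp_le_exp]
  have e3 : (⌊ε / 8 * L⌋₊ : ℝ) ≤ ε / 8 * L := Nat.floor_le (by positivity)
  have e4 : log 4 ≤ 1.4 := by
    have : log 4 = 2 * log 2 := by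
      rw [show (4 : ℝ) = 2 ^ 2 by norm_num, log_pow]
      norm_num
    rw [this]
    have := log_two_lt_d9
    linarith
  have e5 : exp (1 / 2 * l) * exp (1 / 2 * l) = L := by
    rw [← exp_add, hL]
    congr 1
    ring
  have e6 : log K * exp (1 / 2 * l) ≤ 7 / 100 * ε * L := by
    rw [div_le_iff₀ (by positivity)] at ha
    have := mul_le_mul_of_nonneg_right ha (exp_pos (1 / 2 * l)).le
    nlinarith
  have e7 : log K * ((N ^ 2 : ℕ) : ℝ) ≤ log K * exp (1 / 2 * l) :=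
    mul_le_mul_of_nonneg_left hN2 hlogK
  have e8 : log 4 * (⌊ε / 8 * L⌋₊ : ℝ) ≤ 1.4 * (ε / 8 * L) :=
    mul_le_mul e4 e3 (Nat.cast_nonneg _) (by norm_num)
  nlinarith [mul_pos h0 hL0]

/-- the final count -/
theorem ev_count (K : ℕ) (hK : 2 ≤ K) (ε : ℝ) (h0 : 0 < ε) (h1 : ε < 1) :
    ∀ᶠ L : ℝ in atTop, ∀ M : ℕ, 0 < M → (M : ℝ) ≤ exp (ε / 4 * L) →
      exp ((1 - ε) * L) + 2 * (K + 1) ^ 3 * ((⌊K * L⌋₊ : ℝ) + 1) ≤
        (⌊exp L / (K * M)⌋₊ : ℝ) := by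
  have hKr : (2 : ℝ) ≤ K := by exact_mod_cast hK
  filter_upwards [eventually_ge_atTop 1,
    ev_exp_lin (1 + 2 * (K + 1) ^ 3 * (K + 1)) (1 - ε) (by linarith),
    ev_exp_ge (2 * K) (3 / 4 * ε) (by positivity)] with L hL1 ha hb M hM hM'
  have hMr : (0 : ℝ) < M := by exact_mod_cast hM
  have e1 := (Nat.lt_floor_add_one (exp L / (K * M))).le
  have e2 : (⌊K * L⌋₊ : ℝ) ≤ K * L := Nat.floor_le (by positivity)
  have e3 : 1 + 2 * ((K : ℝ) + 1) ^ 3 * ((⌊K * L⌋₊ : ℝ) + 1) ≤ exp ((1 - ε) * L) := by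
    refine le_trans ?_ ha
    have : 2 * ((K : ℝ) + 1) ^ 3 * ((⌊K * L⌋₊ : ℝ) + 1) ≤
        2 * (K + 1) ^ 3 * ((K + 1) * L) := by
      apply mul_le_mul_of_nonneg_left _ (by positivity)
      linarith
    nlinarith
  have e4 : 2 * exp ((1 - ε) * L) ≤ exp L / (K * M) := by
    rw [le_div_iff₀ (by positivity)]
    calc 2 * exp ((1 - ε) * L) * (K * M) ≤ 2 * exp ((1 - ε) * L) * (K * exp (ε / 4 * L)) := by
          gcongr
      _ = (2 * K) * (exp ((1 - ε) * L) * exp (ε / 4 * L)) := by ring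
      _ ≤ exp (3 / 4 * ε * L) * (exp ((1 - ε) * L) * exp (ε / 4 * L)) := by gcongr
      _ = exp L := by
          rw [← exp_add, ← exp_add]
          congr 1
          ring
  linarith

end Pool.Agent.V11304.OM
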