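import Pool.Agent.V11304.OM.Greedy

/-!
# Assembling the residue classes: every exponent of every slot gets its own prime
-/

set_option autoImplicit false

namespace Pool.Agent.V11304.OM

open Finset Nat.Prime

theorem assemble {ι : Type} [Fintype ι] [DecidableEq ι] (K A D0 H Y w : ℕ) (hK : K ≤ D0)
    (hD0 : 3 ≤ D0)
    (hK2 : 2 ≤ K) (hA : 1 ≤ A) (a j k : ι → ℕ) (s : ι → ℤ) (ha : ∀ i, 2 ≤ a i)
    (haK : ∀ i, a i ≤ K)
    (hj : ∀ i, 1 ≤ j i) (hjK : ∀ i, j i ≤ K)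
    (hw : 4 * ((H : ℝ) + 1) ^ 2 ≤ (w : ℝ) ^ 2 * A)
    (hY : Fintype.card ι * w + D0 * A ^ Fintype.card ι + K + 1 ≤ Nat.primeCounting Y) :
    ∃ (P : Finset ℕ) (c : ℕ → ℕ) (q : ι → ℕ → ℕ), (∀ p ∈ P, p.Prime) ∧
      ∏ p ∈ P, p ≤ K ^ ((D0 * A ^ Fintype.card ι) ^ 2) * 4 ^ Y ∧
      (∀ i h, h ≤ H → q i h ∈ P ∧
        (q i h : ℤ) ∣ (c (q i h) : ℤ) * j i + s i * (a i : ℤ) ^ h * k i) ∧
      (∀ i i' h, h ≤ H → i ≠ i' → q i h ≠ q i' h) := by
  obtain ⟨B, c, h1, h2, h3, h4, h5⟩ := phase1 K A D0 H hK hD0 hK2 hA a j k s ha haK hj hjK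
    (univ : Finset ι)
  rw [card_univ] at h3 h4
  set used := (univ : Finset ι).biUnion B with hused
  have hAr : (0 : ℝ) < A := by exact_mod_cast hA
  -- the uncovered exponents
  set V : Finset (Σ _ : ι, ℕ) := univ.sigma (fun i => unc H (B i) c (a i) (j i) (k i) (s i))
    with hV
  have hVc : V.card ≤ Fintype.card ι * w := by
    rw [hV, card_sigma, ← card_univ, ← smul_eq_mul]
    apply sum_le_card_nsmul
    intro i hi
    have h6 := (h5 i hi).trans hw
    have h7 := le_of_mul_le_mul_right h6 hAr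
    have h8 := abs_le_of_sq_le_sq h7 (Nat.cast_nonneg w)
    exact_mod_cast (le_abs_self _).trans h8
  set Q := (Nat.primesLE Y \ used) \ range (K + 1) with hQ
  have hQc : V.card ≤ Q.card := by
    have e1 : (Nat.primesLE Y).card = Nat.primeCounting Y := Nat.primesLE_card_eq_primeCounting Y
    have e2 := le_card_sdiff used (Nat.primesLE Y)
    have e3 := le_card_sdiff (range (K + 1)) (Nat.primesLE Y \ used)
    rw [card_range] at e3
    rw [hQ]
    omega
  obtain ⟨Q', hQ', hQ'c⟩ := exists_subset_card_eq hQc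
  have hQm : ∀ p ∈ Q', p.Prime ∧ p ≤ Y ∧ p ∉ used ∧ K < p := by
    intro p hp
    have h6 := hQ' hp
    rw [hQ, mem_sdiff, mem_sdiff, mem_range, Nat.mem_primesLE] at h6
    exact ⟨h6.1.1.2, h6.1.1.1, h6.1.2, by omega⟩
  let e : V ≃ Q' := equivOfCardEq hQ'c.symm
  have hsol : ∀ (x : Σ _ : ι, ℕ) (p : ℕ), ∃ c0 : ℕ, p.Prime ∧ K < p →
      (p : ℤ) ∣ (c0 : ℤ) * j x.1 + s x.1 * (a x.1 : ℤ) ^ x.2 * k x.1 := by
    intro x p
    by_cases hp : p.Prime ∧ K < p
    · obtain ⟨c0, hc⟩ := solve hp.1 (hj x.1) (lt_of_le_of_lt (hjK x.1) hp.2)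
        (s x.1 * (a x.1 : ℤ) ^ x.2 * k x.1)
      exact ⟨c0, fun _ => hc⟩
    · exact ⟨0, fun h => absurd h hp⟩
  choose sol hsolp using hsol
  let c' : ℕ → ℕ := fun p => if h : p ∈ Q' then sol (e.symm ⟨p, h⟩ : V).1 p else c p
  have hcov : ∀ (i : ι) (h : ℕ), ∃ p : ℕ, h ≤ H → (p ∈ used ∪ Q' ∧
      (p : ℤ) ∣ (c' p : ℤ) * j i + s i * (a i : ℤ) ^ h * k i) ∧
      (p ∈ B i ∨ ∃ hx : (⟨i, h⟩ : Σ _ : ι, ℕ) ∈ V, p = (e ⟨⟨i, h⟩, hx⟩ : Q').1) := by
    intro i h
    by_cases hH : h ≤ H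
    · by_cases hx : (⟨i, h⟩ : Σ _ : ι, ℕ) ∈ V
      · refine ⟨(e ⟨⟨i, h⟩, hx⟩ : Q').1, fun _ => ⟨⟨?_, ?_⟩, Or.inr ⟨hx, rfl⟩⟩⟩
        · exact mem_union_right _ (e ⟨⟨i, h⟩, hx⟩ : Q').2
        · have h6 : c' (e ⟨⟨i, h⟩, hx⟩ : Q').1 = sol ⟨i, h⟩ (e ⟨⟨i, h⟩, hx⟩ : Q').1 := by
            simp only [c']
            rw [dif_pos (e ⟨⟨i, h⟩, hx⟩ : Q').2]
            congr 1
            simp
          rw [h6]
          have h7 := hQm _ (e ⟨⟨i, h⟩, hx⟩ : Q').2
          exact hsolp ⟨i, h⟩ _ ⟨h7.1, h7.2.2.2⟩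
      · have h6 : ∃ p ∈ B i, (p : ℤ) ∣ (c p : ℤ) * j i + s i * (a i : ℤ) ^ h * k i := by
          by_contra hcon
          push Not at hcon
          apply hx
          rw [hV, mem_sigma]
          refine ⟨mem_univ _, ?_⟩
          rw [unc, mem_filter, mem_range]
          exact ⟨Nat.lt_succ_of_le hH, hcon⟩
        obtain ⟨p, hp, hdv⟩ := h6
        have hpu : p ∈ used := mem_biUnion.2 ⟨i, mem_univ _, hp⟩
        refine ⟨p, fun _ => ⟨⟨mem_union_left _ hpu, ?_⟩, Or.inl hp⟩⟩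
        have h7 : c' p = c p := by
          simp only [c']
          rw [dif_neg]
          intro h8
          exact (hQm p h8).2.2.1 hpu
        rw [h7]
        exact hdv
    · exact ⟨0, fun h => absurd h hH⟩
  choose q hq using hcov
  refine ⟨used ∪ Q', c', q, ?_, ?_, fun i h hh => (hq i h hh).1, ?_⟩
  · intro p hp
    rcases mem_union.1 hp with h | h
    · obtain ⟨i, hi, hp'⟩ := mem_biUnion.1 h
      exact (h1 i hi p hp').1
    · exact (hQm p h).1
  · rw [prod_union]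
    · refine Nat.mul_le_mul h4 ?_
      refine le_trans ?_ (primorial_le_four_pow Y)
      unfold primorial
      apply prod_le_prod_of_subset_of_one_le'
      · intro p hp
        have := hQm p hp
        rw [mem_filter, mem_range]
        exact ⟨by omega, this.1⟩
      · intro p hp _
        exact (mem_filter.1 hp).2.one_le
    · rw [disjoint_left]
      intro p hp hp'
      exact (hQm p hp').2.2.1 hp
  · intro i i' h hh hii heq
    have hB : ∀ i : ι, ∀ p ∈ B i, p ∈ used := fun i p hp => mem_biUnion.2 ⟨i, mem_univ _, hp⟩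
    rcases (hq i h hh).2 with hi | ⟨hx, hi⟩
    · rcases (hq i' h hh).2 with hi' | ⟨hx', hi'⟩
      · exact (disjoint_left.1 (h2 i (mem_univ _) i' (mem_univ _) hii)) hi (heq ▸ hi')
      · have h6 := hB i _ hi
        rw [heq, hi'] at h6
        exact (hQm _ (e ⟨⟨i', h⟩, hx'⟩ : Q').2).2.2.1 h6
    · rcases (hq i' h hh).2 with hi' | ⟨hx', hi'⟩
      · have h6 := hB i' _ hi'
        rw [← heq, hi] at h6
        exact (hQm _ (e ⟨⟨i, h⟩, hx⟩ : Q').2).2.2.1 h6
      · rw [hi, hi'] at heq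
        have h6 := e.injective (Subtype.ext heq)
        have h7 := congrArg (fun x => x.1.1) h6
        exact hii h7

/-- the number of distinct prime divisors, with value `0` at `0` -/
def om (m : ℤ) : ℕ := m.natAbs.primeFactors.card

/-- all values have at least `R` prime divisors -/
def GoodN (K R H : ℕ) (n : ℤ) : Prop :=
  ∀ a j k h : ℕ, 2 ≤ a → a ≤ K → 1 ≤ j → j ≤ K → 1 ≤ k → k ≤ K → h ≤ H →
    R ≤ om (n * j + (a : ℤ) ^ h * k) ∧ R ≤ om (n * j - (a : ℤ) ^ h * k)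

theorem om_ge {R : ℕ} {m : ℤ} (hm : m ≠ 0) (f : Fin R → ℕ) (hf : Function.Injective f)
    (hp : ∀ i, (f i).Prime) (hd : ∀ i, ((f i : ℕ) : ℤ) ∣ m) : R ≤ om m := by
  unfold om
  calc R = (univ.image f).card := by
        rw [card_image_of_injective _ hf, card_univ, Fintype.card_fin]
    _ ≤ _ := by
      apply card_le_card
      intro p hp'
      obtain ⟨i, -, rfl⟩ := mem_image.1 hp'
      rw [Nat.mem_primeFactors]
      exact ⟨hp i, Int.natCast_dvd.1 (hd i), Int.natAbs_ne_zero.2 hm⟩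

/-- the index type of the linear forms -/
abbrev Ty (K : ℕ) : Type := Fin (K + 1) × Fin (K + 1) × Fin (K + 1) × Bool

theorem card_slots (K R : ℕ) : Fintype.card (Ty K × Fin R) = 2 * (K + 1) ^ 3 * R := by
  simp only [Ty, Fintype.card_prod, Fintype.card_fin, Fintype.card_bool]
  ring

/-- the discrete form of the theorem -/
theorem discrete (K A D0 H Y w R : ℕ) (hK : K ≤ D0) (hD0 : 3 ≤ D0)
    (hK2 : 2 ≤ K) (hA : 1 ≤ A)
    (hw : 4 * ((H : ℝ) + 1) ^ 2 ≤ (w : ℝ) ^ 2 * A)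
    (hY : 2 * (K + 1) ^ 3 * R * w + D0 * A ^ (2 * (K + 1) ^ 3 * R) + K + 1 ≤ Nat.primeCounting Y) :
    ∃ M : ℕ, 0 < M ∧ M ≤ K ^ ((D0 * A ^ (2 * (K + 1) ^ 3 * R)) ^ 2) * 4 ^ Y ∧
      ∀ x : ℝ, 0 < x → (⌊x / (K * M)⌋₊ : ℝ) ≤
        (({n : ℤ | x ≤ n ∧ (n : ℝ) ≤ (1 + (K : ℝ)⁻¹) * x ∧ GoodN K R H n}.ncard : ℕ) : ℝ) +
          2 * (K + 1) ^ 3 * (H + 1) := by
  have hY' : Fintype.card (Ty K × Fin R) * w + D0 * A ^ Fintype.card (Ty K × Fin R) + K + 1 ≤
      Nat.primeCounting Y := by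
    rw [card_slots]
    exact hY
  obtain ⟨P, c, q, h1, h2, h3, h4⟩ := assemble (ι := Ty K × Fin R) K A D0 H Y w hK hD0 hK2 hA
    (fun i => max 2 i.1.1.val) (fun i => max 1 i.1.2.1.val) (fun i => i.1.2.2.1.val)
    (fun i => if i.1.2.2.2 then 1 else -1) (fun i => le_max_left _ _)
    (fun i => max_le hK2 (by have := i.1.1.2; omega)) (fun i => le_max_left _ _)
    (fun i => max_le (by omega) (by have := i.1.2.1.2; omega)) hw hY'
  rw [card_slots] at h2
  have hPpos : 0 < ∏ p ∈ P, p := prod_pos fun p hp => (h1 p hp).pos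
  obtain ⟨n0, hn0⟩ := Nat.chineseRemainderOfFinset c (fun p => p) P
    (fun p hp => (h1 p hp).ne_zero) (by
      intro p hp p' hp' hne
      exact (Nat.coprime_primes (h1 p hp) (h1 p' hp')).2 hne)
  refine ⟨∏ p ∈ P, p, hPpos, h2, ?_⟩
  intro x hx
  set M := ∏ p ∈ P, p with hM
  have hMr : (0 : ℝ) < M := by exact_mod_cast hPpos
  have hKr : (0 : ℝ) < K := by
    have : 0 < K := by omega
    exact_mod_cast this
  -- the exceptional integers
  let bad : Finset ℤ := (univ ×ˢ range (H + 1) : Finset (Ty K × ℕ)).image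
    (fun y => (-((if y.1.2.2.2 then (1 : ℤ) else -1) * ((max 2 y.1.1.val : ℕ) : ℤ) ^ y.2 *
      (y.1.2.2.1.val : ℤ))) / ((max 1 y.1.2.1.val : ℕ) : ℤ))
  have hbadc : bad.card ≤ 2 * (K + 1) ^ 3 * (H + 1) := by
    refine card_image_le.trans ?_
    rw [card_product, card_range, card_univ]
    simp only [Ty, Fintype.card_prod, Fintype.card_fin, Fintype.card_bool]
    apply le_of_eq
    ring
  set T := ⌊x / (K * M)⌋₊ with hT
  set t0 : ℤ := ⌈(x - n0) / M⌉ with ht0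
  have hgood : ∀ n : ℤ, (∃ t : ℤ, n = n0 + M * t) → n ∉ bad → GoodN K R H n := by
    rintro n ⟨t, rfl⟩ hnb a j k h ha haK hj hjK hk hkK hh
    have hmain : ∀ sg : Bool, ((n0 : ℤ) + M * t) * j +
        (if sg then (1 : ℤ) else -1) * (a : ℤ) ^ h * k ≠ 0 ∧
        R ≤ om (((n0 : ℤ) + M * t) * j + (if sg then (1 : ℤ) else -1) * (a : ℤ) ^ h * k) := by
      intro sg
      let τ : Ty K := (⟨a, by omega⟩, ⟨j, by omega⟩, ⟨k, by omega⟩, sg)
      have hτa : max 2 τ.1.val = a := by simp [τ, ha]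
      have hτj : max 1 τ.2.1.val = j := by simp [τ, hj]
      have hτk : τ.2.2.1.val = k := rfl
      have hτs : τ.2.2.2 = sg := rfl
      have hne : ((n0 : ℤ) + M * t) * j +
          (if sg then (1 : ℤ) else -1) * (a : ℤ) ^ h * k ≠ 0 := by
        intro h0
        apply hnb
        rw [mem_image]
        refine ⟨(τ, h), by simp; omega, ?_⟩
        simp only [hτa, hτj, hτk, hτs]
        have hj0 : (j : ℤ) ≠ 0 := by omega
        have : -((if sg then (1 : ℤ) else -1) * (a : ℤ) ^ h * k) =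
            ((n0 : ℤ) + M * t) * j := by linarith
        rw [this, Int.mul_ediv_cancel _ hj0]
      refine ⟨hne, ?_⟩
      apply om_ge hne (fun g => q (τ, g) h)
      · intro g g' hgg
        by_contra hne'
        exact h4 (τ, g) (τ, g') h hh (by
          intro h6
          exact hne' (Prod.ext_iff.1 h6).2) hgg
      · intro g
        exact h1 _ (h3 (τ, g) h hh).1
      · intro g
        obtain ⟨hqP, hqd⟩ := h3 (τ, g) h hh
        simp only [hτa, hτj, hτk, hτs] at hqd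
        have h6 := hn0 _ hqP
        have h7 : (q (τ, g) h : ℤ) ∣ (n0 : ℤ) - c (q (τ, g) h) :=
          (Int.modEq_iff_dvd.1 ((Int.natCast_modEq_iff.2 h6).symm))
        have h8 : (q (τ, g) h : ℤ) ∣ (M : ℤ) := by
          rw [hM]
          exact_mod_cast dvd_prod_of_mem (fun p => p) hqP
        have h9 : ((n0 : ℤ) + M * t) * j + (if sg then (1 : ℤ) else -1) * (a : ℤ) ^ h * k =
            ((c (q (τ, g) h) : ℤ) * j + (if sg then (1 : ℤ) else -1) * (a : ℤ) ^ h * k) +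
            ((n0 : ℤ) - c (q (τ, g) h)) * j + M * (t * j) := by ring
        rw [h9]
        exact dvd_add (dvd_add hqd (Dvd.dvd.mul_right h7 _)) (Dvd.dvd.mul_right h8 _)
    have hp := (hmain true).2
    have hm := (hmain false).2
    refine ⟨by simpa using hp, ?_⟩
    have h6 : ((n0 : ℤ) + M * t) * j - (a : ℤ) ^ h * k =
        ((n0 : ℤ) + M * t) * j + (if false then (1 : ℤ) else -1) * (a : ℤ) ^ h * k := by
      simp
      ring
    rw [h6]
    exact hm
  let F : Finset ℤ := (range T).image (fun t : ℕ => (n0 : ℤ) + M * (t0 + t))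
  have hFc : F.card = T := by
    rw [card_image_of_injective, card_range]
    intro t t' htt
    have hM0 : (M : ℤ) ≠ 0 := by
      have : (0 : ℤ) < M := by exact_mod_cast hPpos
      exact this.ne'
    simp only at htt
    have h6 : (M : ℤ) * (t0 + t) = M * (t0 + t') := by linarith
    have h7 := mul_left_cancel₀ hM0 h6
    have h8 : (t : ℤ) = t' := by linarith
    exact_mod_cast h8
  have hsub : ((F \ bad : Finset ℤ) : Set ℤ) ⊆
      {n : ℤ | x ≤ n ∧ (n : ℝ) ≤ (1 + (K : ℝ)⁻¹) * x ∧ GoodN K R H n} := by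
    intro n hn
    rw [mem_coe, mem_sdiff] at hn
    obtain ⟨hnF, hnb⟩ := hn
    obtain ⟨t, ht, hte⟩ := mem_image.1 hnF
    rw [mem_range] at ht
    have h6 : (x - n0) / M ≤ t0 := Int.le_ceil _
    have h7 : (t0 : ℝ) < (x - n0) / M + 1 := Int.ceil_lt_add_one _
    have h8 : (T : ℝ) ≤ x / (K * M) := Nat.floor_le (by positivity)
    have h9 : (t : ℝ) + 1 ≤ T := by exact_mod_cast ht
    have hnr : (n : ℝ) = n0 + M * (t0 + t) := by
      rw [← hte]
      push_cast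
      ring
    rw [div_le_iff₀ hMr] at h6
    have h7' : (t0 : ℝ) * M < x - n0 + M := by
      have : ((x - n0) / M + 1) * M = x - n0 + M := by
        field_simp
      rw [← this]
      exact mul_lt_mul_of_pos_right h7 hMr
    have h8' : (T : ℝ) * M ≤ (K : ℝ)⁻¹ * x := by
      have : (K : ℝ)⁻¹ * x = x / (K * M) * M := by
        field_simp
      rw [this]
      exact mul_le_mul_of_nonneg_right h8 hMr.le
    have h10 : ((t : ℝ) + 1) * M ≤ T * M := mul_le_mul_of_nonneg_right h9 hMr.le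
    have h11 : (0 : ℝ) ≤ t * M := by positivity
    refine ⟨?_, ?_, hgood n ⟨t0 + t, hte.symm⟩ hnb⟩
    · rw [hnr]
      nlinarith
    · rw [hnr]
      nlinarith
  have hfin : {n : ℤ | x ≤ n ∧ (n : ℝ) ≤ (1 + (K : ℝ)⁻¹) * x ∧ GoodN K R H n}.Finite := by
    apply (Set.finite_Icc ⌈x⌉ ⌊(1 + (K : ℝ)⁻¹) * x⌋).subset
    intro n hn
    exact ⟨Int.ceil_le.2 hn.1, Int.le_floor.2 hn.2.1⟩
  have hcard := Set.ncard_le_ncard hsub hfin
  rw [Set.ncard_coe_finset] at hcard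
  have h12 := le_card_sdiff bad F
  have h13 : T ≤ {n : ℤ | x ≤ n ∧ (n : ℝ) ≤ (1 + (K : ℝ)⁻¹) * x ∧ GoodN K R H n}.ncard +
      2 * (K + 1) ^ 3 * (H + 1) := by omega
  exact_mod_cast h13

end Pool.Agent.V11304.OM
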