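import Pool.Agent.V11304.OM.Prim

/-!
# Covering exponents by residue classes modulo the orders of primitive primes
-/

set_option autoImplicit false

namespace Pool.Agent.V11304.OM

open Finset

/-- greedy choice of one residue class for every modulus -/
theorem greedy (I : Finset ℕ) (hI : ∀ d ∈ I, 0 < d) (U : Finset ℕ) :
    ∃ r : ℕ → ℕ, ((U.filter (fun h => ∀ d ∈ I, ¬ h ≡ r d [MOD d])).card : ℝ) ≤
      U.card * ∏ d ∈ I, (1 - 1 / (d : ℝ)) := by
  induction I using Finset.induction_on with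
  | empty => exact ⟨fun _ => 0, by simp⟩
  | insert d I hd ih =>
    obtain ⟨r, hr⟩ := ih (fun e he => hI e (mem_insert_of_mem he))
    have hd0 : 0 < d := hI d (mem_insert_self _ _)
    have hdR : (0 : ℝ) < d := by exact_mod_cast hd0
    set V := U.filter (fun h => ∀ e ∈ I, ¬ h ≡ r e [MOD e]) with hV
    obtain ⟨c, hc, hcard⟩ := exists_le_card_fiber_of_nsmul_le_card_of_maps_to
      (s := V) (t := range d) (f := fun h => h % d) (b := (V.card : ℝ) / d)
      (fun h _ => mem_range.2 (Nat.mod_lt _ hd0)) (nonempty_range_iff.2 hd0.ne')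
      (by rw [card_range, nsmul_eq_mul]; exact (mul_div_cancel₀ _ hdR.ne').le)
    rw [mem_range] at hc
    refine ⟨Function.update r d c, ?_⟩
    have hset : U.filter (fun h => ∀ e ∈ insert d I, ¬ h ≡ Function.update r d c e [MOD e]) =
        V.filter (fun h => ¬ h % d = c) := by
      ext h
      simp only [hV, mem_filter, mem_insert, forall_eq_or_imp, Function.update_self]
      have h1 : (h ≡ c [MOD d]) ↔ h % d = c := by
        rw [Nat.ModEq, Nat.mod_eq_of_lt hc]
      have h2 : (∀ e ∈ I, ¬ h ≡ Function.update r d c e [MOD e]) ↔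
          ∀ e ∈ I, ¬ h ≡ r e [MOD e] := by
        refine forall₂_congr fun e he => ?_
        have hne : e ≠ d := by
          rintro rfl
          exact hd he
        rw [Function.update_of_ne hne]
      rw [h1, h2]
      tauto
    rw [hset, prod_insert hd]
    have h3 : ((V.filter (fun h => h % d = c)).card : ℝ) +
        ((V.filter (fun h => ¬ h % d = c)).card : ℝ) = V.card := by
      exact_mod_cast card_filter_add_card_filter_not (s := V) (fun h => h % d = c)
    have h4 : ((V.filter (fun h => ¬ h % d = c)).card : ℝ) ≤ V.card * (1 - 1 / (d : ℝ)) := by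
      have : (V.card : ℝ) * (1 - 1 / (d : ℝ)) = V.card - V.card / d := by ring
      rw [this]
      linarith
    have h5 : (0 : ℝ) ≤ 1 - 1 / (d : ℝ) := by
      rw [sub_nonneg, div_le_one hdR]
      exact_mod_cast hd0
    calc ((V.filter (fun h => ¬ h % d = c)).card : ℝ) ≤ V.card * (1 - 1 / (d : ℝ)) := h4
      _ ≤ (U.card * ∏ d ∈ I, (1 - 1 / (d : ℝ))) * (1 - 1 / (d : ℝ)) :=
          mul_le_mul_of_nonneg_right hr h5
      _ = _ := by ring

/-- the weight `1 - 1 / (2 i + 1)` -/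
noncomputable def g (i : ℕ) : ℝ := 1 - 1 / (((2 * i + 1 : ℕ)) : ℝ)

theorem g_eq (i : ℕ) : g i = 2 * i / (2 * i + 1) := by
  unfold g
  push_cast
  have : (2 * (i : ℝ) + 1) ≠ 0 := by positivity
  field_simp
  ring

theorem g_nonneg (i : ℕ) : 0 ≤ g i := by
  rw [g_eq]
  positivity

theorem g_pos {i : ℕ} (hi : 1 ≤ i) : 0 < g i := by
  rw [g_eq]
  have : (0 : ℝ) < i := by exact_mod_cast hi
  positivity

theorem prod_g (D : ℕ) (hD : 1 ≤ D) (E : ℕ) (hE : D ≤ E) :
    (∏ i ∈ Ico D E, g i) ^ 2 ≤ (D : ℝ) / E := by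
  induction E, hE using Nat.le_induction with
  | base =>
    have : (D : ℝ) ≠ 0 := by
      have : (0 : ℝ) < D := by exact_mod_cast hD
      exact this.ne'
    simp [this]
  | succ E hE ih =>
    have hE0 : (0 : ℝ) < E := by
      have : 1 ≤ E := hD.trans hE
      exact_mod_cast this
    rw [prod_Ico_succ_top hE, mul_pow]
    have h1 : g E ^ 2 ≤ (E : ℝ) / ((E + 1 : ℕ) : ℝ) := by
      rw [g_eq, div_pow]
      push_cast
      rw [div_le_div_iff₀ (by positivity) (by positivity)]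
      nlinarith
    calc (∏ i ∈ Ico D E, g i) ^ 2 * g E ^ 2 ≤ (D : ℝ) / E * ((E : ℝ) / ((E + 1 : ℕ) : ℝ)) :=
          mul_le_mul ih h1 (by positivity) (by positivity)
      _ = _ := by
        rw [div_mul_div_comm, mul_comm (E : ℝ) ((E + 1 : ℕ) : ℝ), mul_div_mul_right _ _ hE0.ne']

theorem prod_g_excl (D : ℕ) (hD : 1 ≤ D) (E : ℕ) (hE : D ≤ E) (X : Finset ℕ)
    (hX : X ⊆ Ico D E) (hXc : X.card ≤ D) :
    (∏ i ∈ Ico D E \ X, g i) ^ 2 ≤ 4 * ((D : ℝ) / E) := by
  have h1 : (∏ i ∈ Ico D E \ X, g i) * ∏ i ∈ X, g i = ∏ i ∈ Ico D E, g i :=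
    prod_sdiff hX
  have hDr : (0 : ℝ) < D := by exact_mod_cast hD
  have h2 : (1 / 2 : ℝ) ≤ ∏ i ∈ X, g i := by
    have h3 : ∏ i ∈ X, g D ≤ ∏ i ∈ X, g i := by
      apply prod_le_prod (fun i _ => g_nonneg D)
      intro i hi
      have := (mem_Ico.1 (hX hi)).1
      unfold g
      gcongr
    rw [prod_const] at h3
    have h4 : g D ^ D ≤ g D ^ X.card :=
      pow_le_pow_of_le_one (g_nonneg D) (by unfold g; simp; positivity) hXc
    have h5 : 1 + (D : ℝ) * (-(1 / (2 * D + 1))) ≤ (1 + (-(1 / (2 * (D : ℝ) + 1)))) ^ D := by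
      apply one_add_mul_le_pow
      have : 1 / (2 * (D : ℝ) + 1) ≤ 1 := by
        rw [div_le_one (by positivity)]
        linarith
      linarith
    have h6 : g D = 1 + (-(1 / (2 * (D : ℝ) + 1))) := by
      unfold g
      push_cast
      ring
    rw [← h6] at h5
    have h7 : (1 / 2 : ℝ) ≤ 1 + (D : ℝ) * (-(1 / (2 * D + 1))) := by
      have : (D : ℝ) * (1 / (2 * D + 1)) ≤ 1 / 2 := by
        rw [mul_one_div, div_le_div_iff₀ (by positivity) (by norm_num)]
        linarith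
      linarith
    linarith
  have h8 : (0 : ℝ) ≤ ∏ i ∈ Ico D E \ X, g i := prod_nonneg fun i _ => g_nonneg i
  have h9 : ∏ i ∈ Ico D E \ X, g i ≤ 2 * ∏ i ∈ Ico D E, g i := by
    rw [← h1]
    nlinarith
  calc (∏ i ∈ Ico D E \ X, g i) ^ 2 ≤ (2 * ∏ i ∈ Ico D E, g i) ^ 2 :=
        pow_le_pow_left₀ h8 h9 2
    _ = 4 * (∏ i ∈ Ico D E, g i) ^ 2 := by ring
    _ ≤ _ := by
      have := prod_g D hD E hE
      linarith

/-- one residue class modulo `p` solving a linear congruence -/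
theorem solve {p j : ℕ} (hp : p.Prime) (hj : 1 ≤ j) (hjp : j < p) (t : ℤ) :
    ∃ c : ℕ, (p : ℤ) ∣ (c : ℤ) * j + t := by
  have := Fact.mk hp
  have hj0 : (j : ZMod p) ≠ 0 := by
    intro h
    have := Nat.le_of_dvd (by omega) ((ZMod.natCast_eq_zero_iff _ _).1 h)
    omega
  refine ⟨(-(t : ZMod p) / j).val, ?_⟩
  rw [← ZMod.intCast_zmod_eq_zero_iff_dvd]
  push_cast
  rw [ZMod.natCast_zmod_val, div_mul_cancel₀ _ hj0, neg_add_cancel]

theorem sum_odd (D E : ℕ) (hE : D ≤ E) : ∑ i ∈ Ico D E, (2 * i + 1) + D ^ 2 = E ^ 2 := by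
  induction E, hE using Nat.le_induction with
  | base => simp
  | succ E hE ih =>
    rw [sum_Ico_succ_top hE]
    calc _ = (∑ i ∈ Ico D E, (2 * i + 1) + D ^ 2) + (2 * E + 1) := by ring
      _ = _ := by rw [ih]; ring

/-- the exponents of slot `(a, j, k, s)` not covered by the primes of `B` with residues `c` -/
def unc (H : ℕ) (B : Finset ℕ) (c : ℕ → ℕ) (a j k : ℕ) (s : ℤ) : Finset ℕ :=
  (range (H + 1)).filter (fun h => ∀ p ∈ B, ¬ (p : ℤ) ∣ (c p : ℤ) * j + s * (a : ℤ) ^ h * k)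

theorem unc_congr {H : ℕ} {B : Finset ℕ} {c c' : ℕ → ℕ} {a j k : ℕ} {s : ℤ}
    (h : ∀ p ∈ B, c p = c' p) : unc H B c a j k s = unc H B c' a j k s := by
  unfold unc
  apply filter_congr
  intro x _
  refine forall₂_congr fun p hp => ?_
  rw [h p hp]

/-- one slot -/
theorem slot (K D A H : ℕ) (hK : K ≤ D) (hD : 3 ≤ D) (hA : 1 ≤ A) (a j k : ℕ) (s : ℤ)
    (ha : 2 ≤ a) (haK : a ≤ K) (hj : 1 ≤ j) (hjK : j ≤ K) (used : Finset ℕ)
    (hused : used.card ≤ D) :
    ∃ (B : Finset ℕ) (c : ℕ → ℕ), (∀ p ∈ B, p.Prime ∧ K < p) ∧ Disjoint used B ∧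
      B.card + D ≤ D * A ∧ (∏ p ∈ B, p) * K ^ (D ^ 2) ≤ K ^ ((D * A) ^ 2) ∧
      ((unc H B c a j k s).card : ℝ) ^ 2 * A ≤ 4 * ((H : ℝ) + 1) ^ 2 := by
  have hDE : D ≤ D * A := Nat.le_mul_of_pos_right D hA
  have hex : ∀ i : ℕ, ∃ q : ℕ, 3 ≤ i → q.Prime ∧ orderOf (a : ZMod q) = 2 * i + 1 ∧
      2 * i + 1 < q ∧ q ≤ a ^ (2 * i + 1) := by
    intro i
    by_cases hi : 3 ≤ i
    · obtain ⟨q, h1, h2, h3, h4⟩ := exists_prim' (b := a) (n := 2 * i + 1) ha (by omega) ⟨i, rfl⟩
      exact ⟨q, fun _ => ⟨h1, h2, h3, h4⟩⟩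
    · exact ⟨0, fun h => absurd h hi⟩
  choose P hP using hex
  set X := (Ico D (D * A)).filter (fun i => P i ∈ used) with hX
  have hinj : Set.InjOn P (Ico D (D * A) : Finset ℕ) := by
    intro i hi i' hi' heq
    rw [coe_Ico, Set.mem_Ico] at hi hi'
    have h1 := (hP i (by omega)).2.1
    have h2 := (hP i' (by omega)).2.1
    rw [heq] at h1
    omega
  have hXc : X.card ≤ D := by
    refine le_trans ?_ hused
    apply card_le_card_of_injOn P
    · intro i hi
      exact (mem_filter.1 hi).2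
    · exact hinj.mono (by
        intro i hi
        exact mem_coe.2 (mem_filter.1 hi).1)
  have hXs : X ⊆ Ico D (D * A) := filter_subset _ _
  set J := Ico D (D * A) \ X with hJ
  have hJm : ∀ i ∈ J, D ≤ i ∧ i < D * A ∧ P i ∉ used := by
    intro i hi
    rw [hJ, mem_sdiff, mem_Ico, hX, mem_filter, mem_Ico] at hi
    tauto
  have hJs : J ⊆ Ico D (D * A) := sdiff_subset
  obtain ⟨r, hr⟩ := greedy (J.image (fun i => 2 * i + 1)) (by
    intro d hd
    obtain ⟨i, -, rfl⟩ := mem_image.1 hd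
    omega) (range (H + 1))
  rw [prod_image (by intro i _ i' _ h; simp only at h; omega), card_range] at hr
  have hsol : ∀ p : ℕ, ∃ c : ℕ, p.Prime ∧ K < p →
      (p : ℤ) ∣ (c : ℤ) * j + s * (a : ℤ) ^ (r (orderOf (a : ZMod p))) * k := by
    intro p
    by_cases hp : p.Prime ∧ K < p
    · obtain ⟨c, hc⟩ := solve hp.1 hj (by omega) (s * (a : ℤ) ^ (r (orderOf (a : ZMod p))) * k)
      exact ⟨c, fun _ => hc⟩
    · exact ⟨0, fun h => absurd h hp⟩
  choose c hc using hsol
  have hB1 : ∀ p ∈ J.image P, p.Prime ∧ K < p := by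
    intro p hp
    obtain ⟨i, hi, rfl⟩ := mem_image.1 hp
    have h1 := hJm i hi
    have h2 := hP i (by omega)
    exact ⟨h2.1, by omega⟩
  refine ⟨J.image P, c, hB1, ?_, ?_, ?_, ?_⟩
  · rw [disjoint_left]
    intro p hp1 hp2
    obtain ⟨i, hi, rfl⟩ := mem_image.1 hp2
    exact (hJm i hi).2.2 hp1
  · have h1 : (J.image P).card ≤ J.card := card_image_le
    have h2 : J.card ≤ (Ico D (D * A)).card := card_le_card hJs
    rw [Nat.card_Ico] at h2
    omega
  · rw [prod_image (fun i hi i' hi' h => hinj (mem_coe.2 (hJs hi)) (mem_coe.2 (hJs hi')) h)]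
    have hK2 : 2 ≤ K := ha.trans haK
    have h1 : ∏ i ∈ J, P i ≤ ∏ i ∈ J, K ^ (2 * i + 1) := by
      apply prod_le_prod' 
      intro i hi
      have h2 := hP i (by have := hJm i hi; omega)
      exact h2.2.2.2.trans (Nat.pow_le_pow_left haK _)
    have h2 : ∏ i ∈ J, K ^ (2 * i + 1) ≤ ∏ i ∈ Ico D (D * A), K ^ (2 * i + 1) := by
      apply prod_le_prod_of_subset_of_one_le' hJs
      intro i _ _
      exact Nat.one_le_pow _ _ (by omega)
    rw [prod_pow_eq_pow_sum (s := Ico D (D * A))] at h2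
    calc (∏ i ∈ J, P i) * K ^ (D ^ 2) ≤ K ^ (∑ i ∈ Ico D (D * A), (2 * i + 1)) * K ^ (D ^ 2) :=
          Nat.mul_le_mul_right _ (h1.trans h2)
      _ = _ := by rw [← pow_add, sum_odd D _ hDE]
  · have hsub : ∀ h ∈ unc H (J.image P) c a j k s, h ∈ range (H + 1) ∧
        ∀ d ∈ J.image (fun i => 2 * i + 1), ¬ h ≡ r d [MOD d] := by
      intro h hh
      rw [unc, mem_filter] at hh
      refine ⟨hh.1, ?_⟩
      intro d hd hmod
      obtain ⟨i, hi, rfl⟩ := mem_image.1 hd
      have h1 := hJm i hi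
      have h2 := hP i (by omega)
      apply hh.2 (P i) (mem_image_of_mem _ hi)
      have h3 := hc (P i) (hB1 _ (mem_image_of_mem _ hi))
      rw [h2.2.1] at h3
      rw [← ZMod.intCast_zmod_eq_zero_iff_dvd] at h3 ⊢
      have h4 : (a : ZMod (P i)) ^ h = (a : ZMod (P i)) ^ (r (2 * i + 1)) :=
        pow_eq_pow_of_modEq hmod (by rw [← h2.2.1]; exact pow_orderOf_eq_one _)
      push_cast at h3 ⊢
      rw [h4]
      exact h3
    have h1 : ((unc H (J.image P) c a j k s).card : ℝ) ≤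
        ((H + 1 : ℕ) : ℝ) * ∏ i ∈ J, g i := by
      refine le_trans ?_ hr
      exact Nat.cast_le.2 (card_le_card fun h hh => mem_filter.2 (hsub h hh))
    have h2 := prod_g_excl D (by omega) (D * A) hDE X hXs hXc
    rw [← hJ] at h2
    have hAr : (0 : ℝ) < A := by exact_mod_cast hA
    have hDr : (0 : ℝ) < D := by
      have : 0 < D := by omega
      exact_mod_cast this
    have h3 : (D : ℝ) / ((D * A : ℕ) : ℝ) = 1 / A := by
      push_cast
      rw [div_mul_eq_div_div, div_self hDr.ne']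
    rw [h3] at h2
    have h4 : ((unc H (J.image P) c a j k s).card : ℝ) ^ 2 ≤
        (((H + 1 : ℕ) : ℝ) * ∏ i ∈ J, g i) ^ 2 :=
      pow_le_pow_left₀ (Nat.cast_nonneg _) h1 2
    push_cast at h4
    calc ((unc H (J.image P) c a j k s).card : ℝ) ^ 2 * A ≤
          (((H : ℝ) + 1) * ∏ i ∈ J, g i) ^ 2 * A := mul_le_mul_of_nonneg_right h4 hAr.le
      _ = ((H : ℝ) + 1) ^ 2 * ((∏ i ∈ J, g i) ^ 2 * A) := by ring
      _ ≤ ((H : ℝ) + 1) ^ 2 * (4 * (1 / A) * A) := by
          apply mul_le_mul_of_nonneg_left _ (by positivity)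
          exact mul_le_mul_of_nonneg_right h2 hAr.le
      _ = _ := by field_simp

/-- all slots -/
theorem phase1 {ι : Type} [DecidableEq ι] (K A D0 H : ℕ) (hK : K ≤ D0) (hD0 : 3 ≤ D0)
    (hK2 : 2 ≤ K) (hA : 1 ≤ A) (a j k : ι → ℕ) (s : ι → ℤ) (ha : ∀ i, 2 ≤ a i)
    (haK : ∀ i, a i ≤ K)
    (hj : ∀ i, 1 ≤ j i) (hjK : ∀ i, j i ≤ K) (S : Finset ι) :
    ∃ (B : ι → Finset ℕ) (c : ℕ → ℕ), (∀ i ∈ S, ∀ p ∈ B i, p.Prime ∧ K < p) ∧
      (∀ i ∈ S, ∀ i' ∈ S, i ≠ i' → Disjoint (B i) (B i')) ∧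
      (S.biUnion B).card ≤ D0 * A ^ S.card ∧
      ∏ p ∈ S.biUnion B, p ≤ K ^ ((D0 * A ^ S.card) ^ 2) ∧
      ∀ i ∈ S, ((unc H (B i) c (a i) (j i) (k i) (s i)).card : ℝ) ^ 2 * A ≤
        4 * ((H : ℝ) + 1) ^ 2 := by
  induction S using Finset.induction_on with
  | empty =>
    refine ⟨fun _ => ∅, fun _ => 0, by simp, by simp, by simp, ?_, by simp⟩
    simp only [biUnion_empty, prod_empty]
    exact Nat.one_le_pow _ _ (by omega)
  | insert i0 S hi0 ih =>
    obtain ⟨B, c, h1, h2, h3, h4, h5⟩ := ih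
    have hpos : 1 ≤ A ^ S.card := Nat.one_le_pow _ _ hA
    have hDge : D0 ≤ D0 * A ^ S.card := Nat.le_mul_of_pos_right _ hpos
    obtain ⟨B0, c0, k1, k2, k3, k4, k5⟩ := slot K (D0 * A ^ S.card) A H (hK.trans hDge)
      (hD0.trans hDge) hA (a i0) (j i0) (k i0) (s i0) (ha i0) (haK i0) (hj i0) (hjK i0)
      (S.biUnion B) h3
    have hne : ∀ i ∈ S, i ≠ i0 := fun i hi h => hi0 (h ▸ hi)
    have hbu : (insert i0 S).biUnion (Function.update B i0 B0) = B0 ∪ S.biUnion B := by
      rw [biUnion_insert, Function.update_self]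
      congr 1
      apply biUnion_congr rfl
      intro i hi
      rw [Function.update_of_ne (hne i hi)]
    have hpw : D0 * A ^ (insert i0 S).card = D0 * A ^ S.card * A := by
      rw [card_insert_of_notMem hi0]
      ring
    refine ⟨Function.update B i0 B0, fun p => if p ∈ S.biUnion B then c p else c0 p,
      ?_, ?_, ?_, ?_, ?_⟩
    · intro i hi p hp
      rcases mem_insert.1 hi with rfl | hi'
      · rw [Function.update_self] at hp
        exact k1 p hp
      · rw [Function.update_of_ne (hne i hi')] at hp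
        exact h1 i hi' p hp
    · intro i hi i' hi' hii
      rcases mem_insert.1 hi with rfl | hiS
      · rcases mem_insert.1 hi' with rfl | hiS'
        · exact absurd rfl hii
        · rw [Function.update_self, Function.update_of_ne (hne i' hiS')]
          exact (k2.mono_left (subset_biUnion_of_mem B hiS')).symm
      · rcases mem_insert.1 hi' with rfl | hiS'
        · rw [Function.update_self, Function.update_of_ne (hne i hiS)]
          exact k2.mono_left (subset_biUnion_of_mem B hiS)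
        · rw [Function.update_of_ne (hne i hiS), Function.update_of_ne (hne i' hiS')]
          exact h2 i hiS i' hiS' hii
    · rw [hbu, hpw]
      have := card_union_le B0 (S.biUnion B)
      omega
    · rw [hbu, hpw, prod_union k2.symm]
      exact (Nat.mul_le_mul_left _ h4).trans k4
    · intro i hi
      rcases mem_insert.1 hi with rfl | hi'
      · rw [Function.update_self]
        rw [unc_congr (c' := c0)]
        · exact k5
        · intro p hp
          rw [if_neg]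
          intro hp'
          exact (disjoint_left.1 k2 hp') hp
      · rw [Function.update_of_ne (hne i hi')]
        rw [unc_congr (c' := c)]
        · exact h5 i hi'
        · intro p hp
          rw [if_pos]
          exact mem_biUnion.2 ⟨i, hi', hp⟩

end Pool.Agent.V11304.OM
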